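import Pool.Agent.Helper16.ASFinal

set_option autoImplicit false

namespace Pool.Agent.Results.MP_0b9e0b_ag.ArtinSchreierCovers

open Pool.Agent.Helper16.BB

/-- The Beilinson-Bloch formula for zero-cycles on multiple Artin-Schreier covers of any dimension
with any number of Artin-Schreier curves among the factors. Let `k` be a finite field of
characteristic `p` and let `X` be the multiple cover `y_j ^ p - h_j ^ (p - 1) y_j = F_j + t G_j` of
a product of projective spaces over `k(t)`, with forms `h_j`, `F_j`, `G_j` over `k` such that the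
`G_j / h_j ^ p` are linearly independent over the prime field. Suppose that the covers `j = e l`
are smooth curves over distinct factors `ℙ^1`, which have no split fibre over a constant `t`, and
that for the other `j` the factors of the base which are involved have total dimension at least
two. Then the dimension of `A_0(X) ⊗ ℚ` is the order of vanishing at `T = q ^ (-d)`, where `d` is
the dimension of `X`, of the L-function of `H^(2d-1)(X)`. -/
theorem result (k : Type) [Field k] [Finite k] (p : ℕ) [Fact p.Prime] [CharP k p]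
    (ι J J₁ : Type) [Fintype ι] [DecidableEq ι] [Fintype J] [DecidableEq J] [Fintype J₁]
    (n : ι → ℕ) (m : J → ι → ℕ) (h F G : J → MvPolynomial (Base n) k)
    (hh : ∀ j, (h j).IsWeightedHomogeneous (fun b : Base n => (Pi.single b.1 1 : ι → ℕ)) (m j))
    (hF : ∀ j, (F j).IsWeightedHomogeneous (fun b : Base n => (Pi.single b.1 1 : ι → ℕ))
      (p • m j))
    (hG : ∀ j, (G j).IsWeightedHomogeneous (fun b : Base n => (Pi.single b.1 1 : ι → ℕ))
      (p • m j))
    (hind : ∀ a : J → ℕ, (∃ j, ¬ p ∣ a j) →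
      ∑ j, (a j : MvPolynomial (Base n) k) * G j * ∏ i ∈ Finset.univ.erase j, h i ^ p ≠ 0)
    (e : J₁ → J) (he : Function.Injective e) (i₀ : J₁ → ι) (hi₀ : Function.Injective i₀)
    (h2 : ∀ l, 2 = n (i₀ l) + 1) (μ : J₁ → ℕ) (hμ : ∀ l, 1 ≤ μ l)
    (hm : ∀ l, m (e l) = Pi.single (i₀ l) (μ l))
    (h₀ F₀ G₀ : J₁ → MvPolynomial (Fin 2) k) (hh₀ : ∀ l, (h₀ l).IsHomogeneous (μ l))
    (hF₀ : ∀ l, (F₀ l).IsHomogeneous (p * μ l)) (hG₀ : ∀ l, (G₀ l).IsHomogeneous (p * μ l))
    (heh : ∀ l, h (e l) =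
      MvPolynomial.rename (fun a => (⟨i₀ l, Fin.cast (h2 l) a⟩ : Base n)) (h₀ l))
    (heF : ∀ l, F (e l) =
      MvPolynomial.rename (fun a => (⟨i₀ l, Fin.cast (h2 l) a⟩ : Base n)) (F₀ l))
    (heG : ∀ l, G (e l) =
      MvPolynomial.rename (fun a => (⟨i₀ l, Fin.cast (h2 l) a⟩ : Base n)) (G₀ l))
    (hh0 : ∀ l, h₀ l ≠ 0)
    (hsm : ∀ l, SmJ (curveW (μ l)) (curveA p (MvPolynomial.map (algebraMap k (RatFunc k)) (h₀ l))
      (linB (F₀ l) (G₀ l))))
    (hNS : ∀ (l : J₁) (α : AlgebraicClosure k) (c : Polynomial (AlgebraicClosure k)),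
      c ^ p ≠ (MvPolynomial.aeval ![Polynomial.X, 1] (h₀ l) : Polynomial k).map
          (algebraMap k (AlgebraicClosure k)) ^ (p - 1) * c +
        ((MvPolynomial.aeval ![Polynomial.X, 1] (F₀ l) : Polynomial k).map
          (algebraMap k (AlgebraicClosure k)) +
        Polynomial.C α * (MvPolynomial.aeval ![Polynomial.X, 1] (G₀ l) : Polynomial k).map
          (algebraMap k (AlgebraicClosure k))))
    (hbig : ∀ j, j ∉ Set.range e → 2 ≤ ∑ i with m j i ≠ 0, n i)
    (L : PowerSeries ℚ) (h0 : PowerSeries.constantCoeff L = 1)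
    (h1 : PowerSeries.X * PowerSeries.derivative ℚ L =
      PowerSeries.mk (fun r => if r = 0 then 0 else
        ((Nat.card k : ℚ) ^ r) ^ (∑ i, n i - 1) * ∑ l,
        (((Nat.card k : ℚ) ^ r + 1) * (Nat.card k : ℚ) ^ r -
          (countAS p (h₀ l) (F₀ l) (G₀ l) r : ℚ) / ((Nat.card k : ℚ) ^ r - 1))) * L) :
    ∃ Q : Polynomial ℚ, (Q : PowerSeries ℚ) = L ∧ Q ≠ 0 ∧
      dimA0 (wC n m) (eqA p (fun j => MvPolynomial.map (algebraMap k (RatFunc k)) (h j))
        (fun j => linB (F j) (G j))) =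
        (Q.rootMultiplicity ((Nat.card k : ℚ)⁻¹ ^ (∑ i, n i)) : Cardinal) :=
  rank_as_ord n m h F G hh hF hG hind e he i₀ hi₀ h2 μ hμ hm h₀ F₀ G₀ hh₀ hF₀ hG₀ heh heF heG hh0
    hsm hNS hbig L h0 h1

end Pool.Agent.Results.MP_0b9e0b_ag.ArtinSchreierCovers
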