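import Pool.Agent.Helper41.PP.Final

set_option autoImplicit false

namespace Pool.Agent.Results.MP_0b9e0b_ag.ConstantCyclesOnPencils

open MvPolynomial Pool.Agent.Helper41.PP

/-- Let `k` be a field, `V` the closed subset with equations `J` of the weighted projective space
with coordinates `Fin (n + 1)` and weights `w`, `F` and `G` forms over `k` of the same degree,
`X` the subset `F + t G = 0` of `V` over `k(t)`, the generic member of the pencil, and `Z` the base
locus `F = G = 0` in `V`, over `k`. Extension of scalars `D ↦ D_K` defines a linear map from the
Chow group with rational coefficients of `Z` to that of `X`, in the same dimension `n - (c + 1)`,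
and its cokernel is a quotient of the Chow group of `V`, in dimension `n - c`, modulo products with
the hyperplane class. If `V` is the whole weighted projective space, the map is surjective for
`c > 0`: every cycle of codimension at least two of the ambient space on `X` is rationally
equivalent to a constant cycle in the base locus. -/
theorem result (k : Type) [Field k] (n : ℕ) (w : Fin (n + 1) → ℕ) (hw : ∀ i, 0 < w i)
    (J : Ideal (MvPolynomial (Fin (n + 1)) k)) (F G : MvPolynomial (Fin (n + 1)) k) (m : ℕ)
    (hF : IsWeightedHomogeneous w F m) (hG : IsWeightedHomogeneous w G m) (c : ℕ) :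
    ∃ φ : Chow w (baseI J F G) (c + 1) →ₗ[ℚ] Chow w (memberI J F G) (c + 1),
      IsExt φ ∧ CokerBound J c φ ∧ (J = ⊥ → 0 < c → IsOnto φ) :=
  final k n w hw J F G m hF hG c

end Pool.Agent.Results.MP_0b9e0b_ag.ConstantCyclesOnPencils
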