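import Pool.Agent.Helper16.DM3

set_option autoImplicit false

namespace Pool.Agent.Results.MP_0b9e0b_ag.DoubleCovers

open Pool.Agent.Helper16.BB Pool.Agent.Helper30.BBLfunProj

/-- The Beilinson-Bloch formula for zero-cycles on multiple double covers of any dimension. Let `k`
be a finite field of odd characteristic and let `X` be the multiple cover `y_j ^ 2 = P_j` of a
product of projective spaces over `k(t)`. Suppose that for the elements `l` of `J₁` (embedded in
`J` by `e`) `P_l = F_l + t G_l` with binary forms `F_l`, `G_l` over `k` in the coordinates of a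
factor `ℙ^1` of its own, and that for every other nonempty set `S` of indices (not of the form
`{l}`) the product of the `P_j`, `j ∈ S`, is a quadratic polynomial in `t` whose coefficients are
forms over `k`, such that the factors of the base which it involves have total dimension at least
two (or at least one, if it does not involve `t`). Then the dimension of `A_0(X) ⊗ ℚ` is the order
of vanishing at `T = q ^ (-d)`, where `d` is the dimension of `X`, of the L-function of
`H^(2d-1)(X)`. -/
theorem result (k : Type) [Field k] [Finite k] (hk : ringChar k ≠ 2) (ι J J₁ : Type) [Fintype ι]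
    [DecidableEq ι] [Fintype J] [Fintype J₁] (n : ι → ℕ) (m : J → ι → ℕ)
    (P : J → MvPolynomial (Base n) (RatFunc k))
    (hP : ∀ j, (P j).IsWeightedHomogeneous (fun b : Base n => (Pi.single b.1 1 : ι → ℕ))
      (2 • m j))
    (e : J₁ → J) (he : Function.Injective e) (i₀ : J₁ → ι) (hi₀ : Function.Injective i₀)
    (h2 : ∀ l, 2 = n (i₀ l) + 1) (μ : J₁ → ℕ) (hμ : ∀ l, 1 ≤ μ l)
    (hm : ∀ l, m (e l) = Pi.single (i₀ l) (μ l)) (F G : J₁ → MvPolynomial (Fin 2) k)
    (hF : ∀ l, (F l).IsHomogeneous (2 * μ l)) (hG : ∀ l, (G l).IsHomogeneous (2 * μ l))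
    (hPe : ∀ l, P (e l) =
      MvPolynomial.rename (fun a => (⟨i₀ l, Fin.cast (h2 l) a⟩ : Base n)) (quad (F l) (G l) 0))
    (hG0 : ∀ l, G l ≠ 0) (hsq : ∀ l, Squarefree (quad (F l) (G l) 0))
    (hNS : ∀ (l : J₁) (α : AlgebraicClosure k), ¬ IsSquare
      ((MvPolynomial.aeval ![Polynomial.X, 1] (F l) : Polynomial k).map
        (algebraMap k (AlgebraicClosure k)) + Polynomial.C α *
        (MvPolynomial.aeval ![Polynomial.X, 1] (G l) : Polynomial k).map
          (algebraMap k (AlgebraicClosure k))))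
    (hS : ∀ S : Finset J, S.Nonempty → (∀ l, S ≠ {e l}) → ∃ A B C : MvPolynomial (Base n) k,
      ∏ j ∈ S, P j = quad A B C ∧
      (2 ≤ ∑ i with ∑ j ∈ S, m j i ≠ 0, n i ∨
        (B = 0 ∧ C = 0 ∧ 1 ≤ ∑ i with ∑ j ∈ S, m j i ≠ 0, n i)))
    (L : PowerSeries ℚ) (h0 : PowerSeries.constantCoeff L = 1)
    (h1 : PowerSeries.X * PowerSeries.derivative ℚ L =
      PowerSeries.mk (fun r => if r = 0 then 0 else
        ((Nat.card k : ℚ) ^ r) ^ (∑ i, n i - 1) * ∑ l,
        (((Nat.card k : ℚ) ^ r + 1) * (Nat.card k : ℚ) ^ r -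
          (countForms (F l) (G l) r : ℚ) / ((Nat.card k : ℚ) ^ r - 1))) * L) :
    ∃ Q : Polynomial ℚ, (Q : PowerSeries ℚ) = L ∧ Q ≠ 0 ∧
      dimA0 (wC n m) (eqC P) =
        (Q.rootMultiplicity ((Nat.card k : ℚ)⁻¹ ^ (∑ i, n i)) : Cardinal) :=
  rank_dm_ord hk n m P hP e he i₀ hi₀ h2 μ hμ hm F G hF hG
    (fun l => (hPe l).trans (by rw [quad_zero])) hG0
    (fun l => by have := hsq l; rwa [quad_zero] at this) hNS hS L h0 h1

end Pool.Agent.Results.MP_0b9e0b_ag.DoubleCovers
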