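import Pool.Agent.HC.KtMain

set_option autoImplicit false

namespace Pool.Agent.Results.MP_0b9e0b_ag.KummerTowers

open Pool.Agent.HC

/-- Let `k` be a finite field of characteristic `p`, `q = p ^ f`, `N ≥ 4`, `e j` natural numbers
with sum `m`, `b` and `a j` nonzero elements of `k`, `n` and `ν j` natural numbers, and `X` the
hypersurface of degree `m` in `P^N` over `K = k(t)` with equation
`b t ^ n ∏ x_j ^ (e j) + ∑ a_j t ^ (ν j) x_j ^ m = 0`. Let `μ ≥ 1` be such that `m` divides all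
`μ (ν i - ν j)`, and suppose that `δ = μ (m n - ∑ (e j) (ν j)) / m` is not `0` and that `m |δ|`
divides `q + 1`. Then `X` is smooth. Let `r ≤ N - 3`, so that cycles of dimension `r` on `X` have
codimension `i = N - 1 - r ≥ 2`. If `2 r + 2` is not `N`, that is if `i` is not `N / 2`, then
`CH_r(X)` with rational coefficients has dimension at most one. If `i = N / 2` its dimension is at
most `1 + J (q ^ N + q) / (q + 1) + (q ^ (N + 2) + q) / (q + 1)`, where `J` is the number of the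
`j` with `e j > 0`. -/
theorem result (k : Type) [Field k] [Finite k] (p f m N : ℕ) (hp : p.Prime) [CharP k p]
    (hf : f ≠ 0) (hN : 4 ≤ N) (e : Fin (N + 1) → ℕ) (he : ∑ j, e j = m) (b : k) (hb : b ≠ 0)
    (n : ℕ) (a : Fin (N + 1) → k) (ha : ∀ j, a j ≠ 0) (ν : Fin (N + 1) → ℕ) (μ : ℕ) (hμ : μ ≠ 0)
    (h1 : ∀ i j, (m : ℤ) ∣ μ * ((ν i : ℤ) - ν j)) (δ : ℤ)
    (hδ : (m : ℤ) * δ = μ * (m * n - ∑ j, (e j : ℤ) * ν j)) (hδ0 : δ ≠ 0)
    (hm : m * δ.natAbs ∣ p ^ f + 1) (r : ℕ) (hr : r + 3 ≤ N) :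
    IsSmoothHyp (eqTower e m b n a ν) ∧ ChowBoundTower (eqTower e m b n a ν) e (p ^ f) r :=
  final_tower k p f m N hp hf hN e he b hb n a ha ν μ hμ h1 δ hδ hδ0 hm r hr

end Pool.Agent.Results.MP_0b9e0b_ag.KummerTowers
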