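import Pool.Agent.Helper73.KP.Final

set_option autoImplicit false

namespace Pool.Agent.Results.MP_0b9e0b_ag.TowerPencils

open MvPolynomial Pool.Agent.Helper41.PP Pool.Agent.Helper73.KP

/-- Let `k` be a field and `A : Family k e s`: the hypersurface
`X : z g + ∑ (u_i v_i ^ (α i) + v_i h_i) + f(x_1, ..., x_s) + t z ^ β = 0` over `k(t)` in the weighted
projective space of dimension `n = 2 e + s` with coordinates `z`, `u_i`, `v_i` (`i < e`), `x_j`;
`f ≠ 0` is any form over `k`, `g` is any form over `k` and `h_i` any form in `v_i`, the `x_j` and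
the `u_j`, `v_j` with `j > i`. Codimension `c` in the projective space is dimension `n - c`.
(1) Sending a closed subvariety `T` of `V(f)` (over `k`) to the cone `z = v = 0`, `x ∈ T` defines
a surjective linear map from the Chow group with rational coefficients of `V(f)` in dimension `d`
to that of `X` in dimension `d + e`, for `d ≤ s - 2`.
(2) The Chow groups of `X` in the other dimensions less than `dim X = n - 1` have rank at most one.
(3) The number of points of the affine cone over the total space of the pencil (for `t` finite)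
over a finite field containing `k` is determined by that of `f = 0`.
(4) If `m ≥ 3` and `m (m - 1) ≠ 0` in `k`, the member of the family
`z u_1 ^ (m-1) + u_1 v_1 ^ (m-1) + v_1 u_2 ^ (m-1) + ... + v_e x_0 ^ (m-1) + x_0 ^ m + ... +
x_s ^ m + t z ^ m = 0` is smooth. -/
theorem result (k : Type) [Field k] (e s : ℕ) :
    (∀ A : Family k e s,
      (∀ c, 1 ≤ c → c ≤ s →
        SurjectsBy A.wx (Ideal.span {A.f}) c A.w A.ideal (c + e + 1) coneK) ∧
      (∀ c, 2 ≤ c → c ≤ 2 * e + s → (c ≤ e + 1 ∨ e + s + 1 ≤ c) → RankLeOne A.w A.ideal c) ∧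
      (∀ (κ : Type) [Field κ] [Finite κ] [Algebra k κ], (A.count κ : ℤ) =
        (Nat.card κ : ℤ) ^ (2 * e + s + 1) - (Nat.card κ : ℤ) ^ (e + s) +
          (Nat.card κ : ℤ) ^ (e + 1) * zeros A.f κ)) ∧
    (∀ (m : ℕ) (hm : 3 ≤ m), (m : k) ≠ 0 → ((m - 1 : ℕ) : k) ≠ 0 →
      IsSmooth (chainFamily k e s m (Nat.le_of_succ_le hm)).eqn) :=
  ⟨fun A => final k e s A, fun m hm h1 h2 => final_smooth k e s m hm h1 h2⟩

end Pool.Agent.Results.MP_0b9e0b_ag.TowerPencils
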